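import Pool.Agent.Y709.Ten.Stm
import Mathlib.LinearAlgebra.Matrix.Charpoly.Minpoly
import Mathlib.LinearAlgebra.Matrix.Charpoly.Coeff
import Mathlib.RingTheory.AdjoinRoot
import Mathlib.Algebra.Polynomial.Reverse

/-!
Every polynomial with constant term one is a reversed characteristic polynomial.
-/

set_option autoImplicit false

open Polynomial

namespace Pool.Agent.Y587.Ten

theorem charpoly_adjoinRoot {R : Type} [CommRing R] [Nontrivial R] {g : R[X]} (hg : g.Monic) :
    (Algebra.leftMulMatrix (AdjoinRoot.powerBasis' hg).basis (AdjoinRoot.root g)).charpoly = g := by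
  obtain ⟨M, hM⟩ : ∃ M, M = Algebra.leftMulMatrix (AdjoinRoot.powerBasis' hg).basis
    (AdjoinRoot.root g) := ⟨_, rfl⟩
  rw [← hM]
  have h0 : aeval (AdjoinRoot.root g) M.charpoly = 0 := by
    apply (injective_iff_map_eq_zero (G := AdjoinRoot g)
      (Algebra.leftMulMatrix (AdjoinRoot.powerBasis' hg).basis)).mp
      (Algebra.leftMulMatrix_injective (AdjoinRoot.powerBasis' hg).basis)
    rw [← Polynomial.aeval_algHom_apply, ← hM, Matrix.aeval_self_charpoly]
  rw [AdjoinRoot.aeval_eq, AdjoinRoot.mk_eq_zero] at h0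
  have hm : M.charpoly.Monic := Matrix.charpoly_monic M
  have hd : M.charpoly.natDegree = g.natDegree := by
    rw [Matrix.charpoly_natDegree_eq_dim, Fintype.card_fin]
    rfl
  obtain ⟨q, hq⟩ := h0
  have hqm : q.Monic := hg.of_mul_monic_left (by rw [← hq]; exact hm)
  have hdeg : q.natDegree = 0 := by
    have h1 := hg.natDegree_mul hqm
    rw [← hq, hd] at h1
    omega
  rw [hq, hqm.natDegree_eq_zero.1 hdeg, mul_one]

theorem companion {R : Type} [CommRing R] (Q : R[X]) (hQ : Q.coeff 0 = 1) :
    ∃ (n : ℕ) (A : Matrix (Fin n) (Fin n) R), A.charpolyRev = Q := by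
  rcases subsingleton_or_nontrivial R with h | h
  · exact ⟨0, 0, Subsingleton.elim _ _⟩
  · have hT : Q.natTrailingDegree = 0 := by
      apply natTrailingDegree_eq_zero.2
      right
      rw [hQ]
      exact one_ne_zero
    have hg : Q.reverse.Monic := by
      unfold Monic
      rw [reverse_leadingCoeff, trailingCoeff, hT, hQ]
    refine ⟨_, Algebra.leftMulMatrix (AdjoinRoot.powerBasis' hg).basis
      (AdjoinRoot.root Q.reverse), ?_⟩
    rw [← Matrix.reverse_charpoly, charpoly_adjoinRoot]
    have hd : Q.reverse.natDegree = Q.natDegree := by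
      rw [reverse_natDegree, hT, Nat.sub_zero]
    unfold reverse at hd ⊢
    rw [hd, reflect_reflect]
/-- T2 -/
theorem companionExists : Pool.Agent.Y709.Ten.CompanionExists := fun _ _ Q hQ => companion Q hQ

end Pool.Agent.Y587.Ten
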