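import Pool.Agent.Y709.Ten.Stm
import Mathlib.FieldTheory.IsAlgClosed.AlgebraicClosure
import Mathlib.FieldTheory.RatFunc.AsPolynomial

/-!
The determinant of the matrix of a pencil: reduction to pencils with simple collisions.
-/

set_option autoImplicit false

open Polynomial

namespace Pool.Agent.Y587.Ten

open Pool.Agent.Y709 Pool.Agent.Y709.Gen Pool.Agent.Y709.Ten

/-! ### Change of the base field -/

section base

variable (k K : Type) {A : Type} [Field k] [Field K] [Algebra k K] [CommRing A] [Algebra k A]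
  [Algebra K A] [IsScalarTower k K A]

theorem intg_base (H : A[X]) : intg k H = intg K H := by
  ext i
  rcases i with _ | i
  · rw [coeff_intg_zero, coeff_intg_zero]
  · rw [coeff_intg_succ, coeff_intg_succ, IsScalarTower.algebraMap_apply k K A, map_inv₀, map_add,
      map_natCast, map_one]

theorem phi_base {κ : Type} [Fintype κ] [DecidableEq κ] (b : κ → A) (m : κ → ℕ) (o : κ) :
    phi k b m o = phi K b m o := by
  unfold phi
  refine Matrix.ext fun i j => ?_
  rw [Matrix.of_apply, Matrix.of_apply, intg_base k K]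

end base

/-! ### The determinant over a field is not zero -/

section nz

variable {K : Type} [Field K] {r : ℕ}

theorem det_mn_ne (p : ℕ) [hp : Fact p.Prime] [CharP K p] {b : Fin (r + 1) → K} (hb : Function.Injective b)
    {m : Fin (r + 1) → ℕ} (hm : ∀ i, 0 < m i)
    (hinv : ∀ i : ℕ, i < ∑ l, m l → ((i : K) + 1) ≠ 0) : (mn b m).det ≠ 0 := by
  intro h0
  obtain ⟨v, hv0, hv⟩ := Matrix.exists_mulVec_eq_zero_iff.2 h0
  obtain ⟨u, hu⟩ : ∃ u : Fin (r + 1) → K, u = Fin.cons 0 v := ⟨_, rfl⟩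
  have hu0 : u 0 = 0 := by rw [hu]; rfl
  have hus : ∀ i : Fin r, u i.succ = v i := fun i => by rw [hu]; rfl
  have hker : (phi K b m 0).mulVec u = 0 := by
    funext i
    rw [Pi.zero_apply, Matrix.mulVec, dotProduct]
    refine Fin.cases ?_ (fun i => ?_) i
    · refine Finset.sum_eq_zero fun j _ => ?_
      rw [phi_row K _ _ rfl, zero_mul]
    · rw [Fin.sum_univ_succ, hu0, mul_zero, zero_add]
      have h3 := congrFun hv i
      rw [Pi.zero_apply, Matrix.mulVec, dotProduct] at h3
      rw [← h3]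
      refine Finset.sum_congr rfl fun j _ => ?_
      rw [hus]
      rfl
  have hmq : ∀ i, m i < p ^ (∑ l, m l + 1) := by
    intro i
    have h1 : m i ≤ ∑ l, m l := Finset.single_le_sum (fun j _ => Nat.zero_le (m j))
      (Finset.mem_univ i)
    have h2 : ∑ l, m l + 1 < p ^ (∑ l, m l + 1) := Nat.lt_pow_self hp.out.one_lt
    omega
  have h5 := phi_ker (k := K) (F := K) (p := p) rfl (Nat.succ_pos (∑ l, m l))
    (Fintype.card_fin (r + 1)) hb hm hmq hinv 0 u hu0 hker
  apply hv0
  funext i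
  rw [← hus, h5]
  rfl

end nz

/-! ### Two points on a line with simple collisions -/

section line

variable {K : Type} [Field K] {r : ℕ}

/-- the line through the points `b` and `b'` -/
noncomputable def ln (b b' : Fin (r + 1) → K) (i : Fin (r + 1)) : K[X] :=
  C (b i) + C (b' i - b i) * X

theorem ln_sub (b b' : Fin (r + 1) → K) (i j : Fin (r + 1)) :
    ln b b' i - ln b b' j = C ((b' i - b i) - (b' j - b j)) * X + C (b i - b j) := by
  unfold ln
  simp only [C_sub]
  ring

theorem eval_minor (B : Fin (r + 1) → K[X]) (m : Fin (r + 1) → ℕ) (x : K) :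
    (minor 1 B m).det.eval x = (mn (fun i => (B i).eval x) m).det := by
  have h := RingHom.map_det (evalRingHom x) (minor 1 B m)
  rw [coe_evalRingHom] at h
  rw [h]
  congr 1
  refine Matrix.ext fun i j => ?_
  rw [RingHom.mapMatrix_apply, Matrix.map_apply]
  unfold minor mn
  rw [Matrix.of_apply, Matrix.of_apply, one_mul]
  exact map_phi K (evalRingHom x) (fun a => by
    rw [coe_evalRingHom, algebraMap_eq, eval_C]; rfl) B m 0 i.succ j.succ

theorem two_points (p : ℕ) [hp : Fact p.Prime] [CharP K p] {b b' : Fin (r + 1) → K} (hb : Function.Injective b)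
    (hv : ∀ i j, i ≠ j → (b' i - b i) - (b' j - b j) ≠ 0)
    (hc : ∀ i j a c, i ≠ j → a ≠ c → ¬ ((a = i ∧ c = j) ∨ (a = j ∧ c = i)) →
      (b i - b j) * (b' a - b' c) ≠ (b a - b c) * (b' i - b' j))
    {m : Fin (r + 1) → ℕ} (hm : ∀ i, 0 < m i)
    (hinv : ∀ i : ℕ, i < ∑ l, m l → ((i : K) + 1) ≠ 0) :
    ∃ c : K, c ≠ 0 ∧
      (mn b m).det = c * ∏ x ∈ Irr.prs r, (b x.2 - b x.1) ^ (m x.1 + m x.2) ∧
      (mn b' m).det = c * ∏ x ∈ Irr.prs r, (b' x.2 - b' x.1) ^ (m x.1 + m x.2) := by
  have hS : Irr.Simple (ln b b') 1 := by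
    have hdeg : ∀ i j, i ≠ j → (ln b b' i - ln b b' j).degree = 1 := by
      intro i j hij
      rw [ln_sub]
      exact degree_linear (hv i j hij)
    refine ⟨one_pos, fun i => ?_, fun i j hij => ?_, fun i j hij => ?_,
      fun P hP i j hij hPi a c hac hPa => ?_⟩
    · unfold ln
      rw [add_comm]
      exact natDegree_linear_le
    · exact natDegree_eq_of_degree_eq_some (hdeg i j hij)
    · exact (irreducible_of_degree_eq_one (hdeg i j hij)).squarefree
    · by_contra hcon
      have h1 := hc i j a c hij hac hcon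
      have h2 : P ∣ C ((b' a - b a) - (b' c - b c)) * (ln b b' i - ln b b' j) -
          C ((b' i - b i) - (b' j - b j)) * (ln b b' a - ln b b' c) :=
        dvd_sub (hPi.mul_left _) (hPa.mul_left _)
      have h3 : C ((b' a - b a) - (b' c - b c)) * (ln b b' i - ln b b' j) -
          C ((b' i - b i) - (b' j - b j)) * (ln b b' a - ln b b' c) =
          C ((b i - b j) * (b' a - b' c) - (b a - b c) * (b' i - b' j)) := by
        rw [ln_sub, ln_sub]
        simp only [C_sub, C_mul]
        ring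
      rw [h3] at h2
      have h4 : IsUnit (C ((b i - b j) * (b' a - b' c) - (b a - b c) * (b' i - b' j)) : K[X]) :=
        isUnit_C.2 (isUnit_iff_ne_zero.2 (sub_ne_zero.2 h1))
      exact hP.not_isUnit (isUnit_of_dvd_unit h2 h4)
  have e0 : (fun i => (ln b b' i).eval 0) = b := by
    funext i
    unfold ln
    rw [eval_add, eval_mul, eval_C, eval_X, mul_zero, add_zero]
  have e1 : (fun i => (ln b b' i).eval 1) = b' := by
    funext i
    unfold ln
    rw [eval_add, eval_mul, eval_C, eval_C, eval_X, mul_one]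
    ring
  have hdet : (minor 1 (ln b b') m).det ≠ 0 := by
    intro h0
    have h1 := eval_minor (ln b b') m 0
    rw [h0, eval_zero, e0] at h1
    exact det_mn_ne p hb hm hinv h1.symm
  obtain ⟨c, hc0, hceq⟩ := Irr.det_eq hS hm hinv hdet
  have key : ∀ x : K, (mn (fun i => (ln b b' i).eval x) m).det =
      c * (∏ y ∈ Irr.prs r, (-1 : K) ^ (m y.1 + m y.2)) *
        ∏ y ∈ Irr.prs r, ((ln b b' y.2).eval x - (ln b b' y.1).eval x) ^ (m y.1 + m y.2) := by
    intro x
    rw [← eval_minor, hceq, eval_mul, eval_C, eval_prod, mul_assoc, ← Finset.prod_mul_distrib]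
    congr 1
    refine Finset.prod_congr rfl fun y _ => ?_
    rw [eval_pow, eval_sub, ← mul_pow]
    congr 1
    ring
  refine ⟨c * ∏ y ∈ Irr.prs r, (-1 : K) ^ (m y.1 + m y.2), ?_, ?_, ?_⟩
  · refine mul_ne_zero hc0 (Finset.prod_ne_zero_iff.2 fun y _ => ?_)
    exact pow_ne_zero _ (neg_ne_zero.2 one_ne_zero)
  · have h := key 0
    rw [e0] at h
    rw [h]
    congr 1
    refine Finset.prod_congr rfl fun y _ => ?_
    rw [← congrFun e0 y.1, ← congrFun e0 y.2]
  · have h := key 1
    rw [e1] at h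
    rw [h]
    congr 1
    refine Finset.prod_congr rfl fun y _ => ?_
    rw [← congrFun e1 y.1, ← congrFun e1 y.2]

end line

/-! ### Generic points -/

section generic

variable {L K : Type} [Field L] [Infinite L] [Field K] [Algebra L K]

theorem exists_avoid {ι : Type} [Fintype ι] (g : ι → K[X]) (hg : ∀ i, g i ≠ 0) :
    ∃ z : L, ∀ i, (g i).eval (algebraMap L K z) ≠ 0 := by
  classical
  have h0 : (∏ i, g i) ≠ 0 := Finset.prod_ne_zero_iff.2 fun i _ => hg i
  have hfin : {z : L | (∏ i, g i).eval (algebraMap L K z) = 0}.Finite := by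
    have h1 : {z : L | (∏ i, g i).eval (algebraMap L K z) = 0} =
        (algebraMap L K) ⁻¹' {x : K | (∏ i, g i).IsRoot x} := rfl
    rw [h1]
    refine Set.Finite.preimage (algebraMap L K).injective.injOn ?_
    exact finite_setOfPred_isRoot h0
  obtain ⟨z, hz⟩ := hfin.infinite_compl.nonempty
  refine ⟨z, fun i hi => hz ?_⟩
  show (∏ i, g i).eval (algebraMap L K z) = 0
  rw [eval_prod]
  exact Finset.prod_eq_zero (Finset.mem_univ i) hi

theorem exists_generic {r : ℕ} {b : Fin (r + 1) → K} (hb : Function.Injective b) :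
    ∃ z : Fin (r + 1) → L, Function.Injective z ∧
      (∀ i j, i ≠ j → (algebraMap L K (z i) - b i) - (algebraMap L K (z j) - b j) ≠ 0) ∧
      (∀ i j a c, i ≠ j → a ≠ c → ¬ ((a = i ∧ c = j) ∨ (a = j ∧ c = i)) →
        (b i - b j) * (algebraMap L K (z a) - algebraMap L K (z c)) ≠
          (b a - b c) * (algebraMap L K (z i) - algebraMap L K (z j))) := by
  classical
  obtain ⟨G1, hG1⟩ : ∃ G1 : Fin (r + 1) → Fin (r + 1) → K[X], G1 = fun (i j : Fin (r + 1)) =>
    if i = j then 1 else X ^ ((i : ℕ) + 1) - X ^ ((j : ℕ) + 1) := ⟨_, rfl⟩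
  obtain ⟨G2, hG2⟩ : ∃ G2 : Fin (r + 1) → Fin (r + 1) → K[X], G2 = fun (i j : Fin (r + 1)) =>
    if i = j then 1 else X ^ ((i : ℕ) + 1) - X ^ ((j : ℕ) + 1) - C (b i - b j) := ⟨_, rfl⟩
  obtain ⟨G3, hG3⟩ : ∃ G3 : Fin (r + 1) → Fin (r + 1) → Fin (r + 1) → Fin (r + 1) → K[X],
    G3 = fun (i j a c : Fin (r + 1)) => if i ≠ j ∧ a ≠ c ∧ ¬ ((a = i ∧ c = j) ∨ (a = j ∧ c = i)) then
      C (b i - b j) * (X ^ ((a : ℕ) + 1) - X ^ ((c : ℕ) + 1)) -
        C (b a - b c) * (X ^ ((i : ℕ) + 1) - X ^ ((j : ℕ) + 1)) else 1 := ⟨_, rfl⟩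
  have n1 : ∀ i j, G1 i j ≠ 0 := by
    intro i j h0
    rw [hG1] at h0
    by_cases hij : i = j
    · simp only [if_pos hij] at h0
      exact one_ne_zero h0
    · simp only [if_neg hij] at h0
      have h1 := congrArg (fun q => q.coeff ((i : ℕ) + 1)) h0
      have h2 : ¬ (i : ℕ) + 1 = (j : ℕ) + 1 := fun h => hij (Fin.ext (by omega))
      simp only [coeff_sub, coeff_X_pow, if_true, if_neg h2, coeff_zero, sub_zero] at h1
      exact one_ne_zero h1
  have n2 : ∀ i j, G2 i j ≠ 0 := by
    intro i j h0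
    rw [hG2] at h0
    by_cases hij : i = j
    · simp only [if_pos hij] at h0
      exact one_ne_zero h0
    · simp only [if_neg hij] at h0
      have h1 := congrArg (fun q => q.coeff ((i : ℕ) + 1)) h0
      have h2 : ¬ (i : ℕ) + 1 = (j : ℕ) + 1 := fun h => hij (Fin.ext (by omega))
      simp only [coeff_sub, coeff_X_pow, if_true, if_neg h2, coeff_zero, sub_zero, coeff_C,
        if_neg (Nat.succ_ne_zero (i : ℕ))] at h1
      exact one_ne_zero h1
  have n3 : ∀ i j a c, G3 i j a c ≠ 0 := by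
    intro i j a c h0
    rw [hG3] at h0
    by_cases hh : i ≠ j ∧ a ≠ c ∧ ¬ ((a = i ∧ c = j) ∨ (a = j ∧ c = i))
    · simp only [if_pos hh] at h0
      obtain ⟨hij, hac, hne⟩ := hh
      have hbij : b i - b j ≠ 0 := sub_ne_zero.2 fun h => hij (hb h)
      have hcase : (a ≠ i ∧ a ≠ j) ∨ (c ≠ i ∧ c ≠ j) := by
        by_contra hcon
        push Not at hcon
        obtain ⟨hc1, hc2⟩ := hcon
        apply hne
        by_cases ha : a = i
        · left
          refine ⟨ha, hc2 fun hci => hac (ha.trans hci.symm)⟩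
        · right
          have haj := hc1 ha
          refine ⟨haj, ?_⟩
          by_contra hci
          exact hac (haj.trans (hc2 hci).symm)
      rcases hcase with ⟨h1, h2⟩ | ⟨h1, h2⟩
      · have h3 := congrArg (fun q => q.coeff ((a : ℕ) + 1)) h0
        have e1 : ¬ (a : ℕ) + 1 = (i : ℕ) + 1 := fun h => h1 (Fin.ext (by omega))
        have e2 : ¬ (a : ℕ) + 1 = (j : ℕ) + 1 := fun h => h2 (Fin.ext (by omega))
        have e3 : ¬ (a : ℕ) + 1 = (c : ℕ) + 1 := fun h => hac (Fin.ext (by omega))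
        simp only [coeff_sub, coeff_C_mul, coeff_X_pow, if_true, if_neg e1, if_neg e2, if_neg e3,
          coeff_zero, sub_zero, mul_one, mul_zero] at h3
        exact hbij h3
      · have h3 := congrArg (fun q => q.coeff ((c : ℕ) + 1)) h0
        have e1 : ¬ (c : ℕ) + 1 = (i : ℕ) + 1 := fun h => h1 (Fin.ext (by omega))
        have e2 : ¬ (c : ℕ) + 1 = (j : ℕ) + 1 := fun h => h2 (Fin.ext (by omega))
        have e3 : ¬ (c : ℕ) + 1 = (a : ℕ) + 1 := fun h => hac (Fin.ext (by omega))
        simp only [coeff_sub, coeff_C_mul, coeff_X_pow, if_true, if_neg e1, if_neg e2, if_neg e3,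
          coeff_zero, sub_zero, mul_one, mul_zero, zero_sub, mul_neg] at h3
        exact hbij (neg_eq_zero.1 h3)
    · simp only [if_neg hh] at h0
      exact one_ne_zero h0
  obtain ⟨z, hz⟩ := exists_avoid (L := L)
    (ι := Fin (r + 1) × Fin (r + 1) × Fin (r + 1) × Fin (r + 1))
    (fun x => G1 x.1 x.2.1 * G2 x.1 x.2.1 * G3 x.1 x.2.1 x.2.2.1 x.2.2.2)
    (fun x => mul_ne_zero (mul_ne_zero (n1 _ _) (n2 _ _)) (n3 _ _ _ _))
  have hz' : ∀ i j a c, (G1 i j).eval (algebraMap L K z) ≠ 0 ∧
      (G2 i j).eval (algebraMap L K z) ≠ 0 ∧ (G3 i j a c).eval (algebraMap L K z) ≠ 0 := by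
    intro i j a c
    have h1 := hz (i, j, a, c)
    rw [eval_mul, eval_mul] at h1
    exact ⟨left_ne_zero_of_mul (left_ne_zero_of_mul h1),
      right_ne_zero_of_mul (left_ne_zero_of_mul h1), right_ne_zero_of_mul h1⟩
  refine ⟨fun i => z ^ ((i : ℕ) + 1), ?_, ?_, ?_⟩
  · intro i j hij
    by_contra hne
    apply (hz' i j i j).1
    rw [hG1]
    simp only [if_neg hne, eval_sub, eval_pow, eval_X]
    simp only at hij
    rw [← map_pow, ← map_pow, hij, sub_self]
  · intro i j hij h0
    apply (hz' i j i j).2.1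
    rw [hG2]
    simp only [if_neg hij, eval_sub, eval_pow, eval_X, eval_C]
    rw [← h0, map_pow, map_pow]
    ring
  · intro i j a c hij hac hne h0
    apply (hz' i j a c).2.2
    rw [hG3]
    simp only [if_pos (⟨hij, hac, hne⟩ : i ≠ j ∧ a ≠ c ∧ ¬ ((a = i ∧ c = j) ∨ (a = j ∧ c = i))),
      eval_sub, eval_pow, eval_X, eval_C, eval_mul]
    rw [← map_pow, ← map_pow, ← map_pow, ← map_pow]
    exact sub_eq_zero.2 h0

end generic

/-! ### The determinant -/

theorem detMinor : DetMinor := by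
  intro k _ p _ _ r m hm hinv β hβ
  obtain ⟨ι, hι⟩ : ∃ ι : k →+* AlgebraicClosure k, ι = algebraMap k (AlgebraicClosure k) :=
    ⟨_, rfl⟩
  have hLchar : CharP (AlgebraicClosure k) p :=
    charP_of_injective_algebraMap (algebraMap k (AlgebraicClosure k)).injective p
  have hKchar : CharP (RatFunc (AlgebraicClosure k)) p :=
    charP_of_injective_algebraMap
      (algebraMap (AlgebraicClosure k) (RatFunc (AlgebraicClosure k))).injective p
  have hinj : Function.Injective (algebraMap (AlgebraicClosure k)[X]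
      (RatFunc (AlgebraicClosure k))) := IsFractionRing.injective _ _
  obtain ⟨φ, hφ⟩ : ∃ φ : k[X] →+* RatFunc (AlgebraicClosure k), φ =
      (algebraMap (AlgebraicClosure k)[X] (RatFunc (AlgebraicClosure k))).comp (mapRingHom ι) :=
    ⟨_, rfl⟩
  have hφa : ∀ q : k[X], φ q = algebraMap (AlgebraicClosure k)[X] (RatFunc (AlgebraicClosure k))
      (q.map ι) := fun q => by rw [hφ]; rfl
  have hφinj : Function.Injective φ := by
    intro x y h
    rw [hφa, hφa] at h
    exact map_injective ι ι.injective (hinj h)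
  have hb : Function.Injective fun i => φ (β i) := fun i j h => hβ (hφinj h)
  have hinvK : ∀ i : ℕ, i < ∑ l, m l → ((i : RatFunc (AlgebraicClosure k)) + 1) ≠ 0 := by
    intro i hi h0
    apply hinv i hi
    have h1 : φ (C ((i : k) + 1)) = 0 := by
      rw [hφa, map_C, map_add, map_natCast, map_one, C_add, C_eq_natCast, C_1, map_add,
        map_natCast, map_one]
      exact h0
    have h2 := hφinj (h1.trans (map_zero φ).symm)
    exact C_eq_zero.1 h2
  obtain ⟨z, hz1, hz2, hz3⟩ := exists_generic (L := AlgebraicClosure k) hb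
  obtain ⟨c, hc0, hc1, hc2⟩ := two_points p (b' := fun i => algebraMap
    (AlgebraicClosure k) (RatFunc (AlgebraicClosure k)) (z i)) hb hz2 hz3 hm hinvK
  -- the constant belongs to the algebraic closure
  have hdz : (mn (fun i => algebraMap (AlgebraicClosure k) (RatFunc (AlgebraicClosure k)) (z i))
      m).det = algebraMap (AlgebraicClosure k) (RatFunc (AlgebraicClosure k)) (mn z m).det := by
    rw [RingHom.map_det]
    congr 1
    refine Matrix.ext fun i j => ?_
    rw [RingHom.mapMatrix_apply, Matrix.map_apply]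
    unfold mn
    rw [Matrix.of_apply, Matrix.of_apply, map_phi (AlgebraicClosure k)
      (algebraMap (AlgebraicClosure k) (RatFunc (AlgebraicClosure k))) (fun a => rfl) z m 0
      i.succ j.succ, phi_base (AlgebraicClosure k) (RatFunc (AlgebraicClosure k))]
  obtain ⟨Pz, hPz⟩ : ∃ Pz, Pz = ∏ x ∈ Irr.prs r, (z x.2 - z x.1) ^ (m x.1 + m x.2) := ⟨_, rfl⟩
  have hPz0 : Pz ≠ 0 := by
    rw [hPz]
    refine Finset.prod_ne_zero_iff.2 fun x hx => pow_ne_zero _ (sub_ne_zero.2 fun h => ?_)
    exact (Irr.mem_prs.1 hx).ne' (hz1 h)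
  have hPzK : ∏ x ∈ Irr.prs r, (algebraMap (AlgebraicClosure k) (RatFunc (AlgebraicClosure k))
      (z x.2) - algebraMap (AlgebraicClosure k) (RatFunc (AlgebraicClosure k)) (z x.1)) ^
      (m x.1 + m x.2) = algebraMap (AlgebraicClosure k) (RatFunc (AlgebraicClosure k)) Pz := by
    rw [hPz, map_prod]
    refine Finset.prod_congr rfl fun x _ => ?_
    rw [map_pow, map_sub]
  have hcL : c = algebraMap (AlgebraicClosure k) (RatFunc (AlgebraicClosure k))
      ((mn z m).det / Pz) := by
    simp only [hPzK] at hc2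
    rw [hdz] at hc2
    rw [map_div₀, hc2, mul_div_assoc, div_self, mul_one]
    exact (_root_.map_ne_zero _).2 hPz0
  obtain ⟨c0, hc0'⟩ : ∃ c0, c0 = (mn z m).det / Pz := ⟨_, rfl⟩
  rw [← hc0'] at hcL
  -- the identity over the algebraic closure
  obtain ⟨Q, hQ⟩ : ∃ Q : k[X], Q = ∏ x ∈ Irr.prs r, (β x.2 - β x.1) ^ (m x.1 + m x.2) :=
    ⟨_, rfl⟩
  have hQ0 : Q ≠ 0 := by
    rw [hQ]
    refine Finset.prod_ne_zero_iff.2 fun x hx => pow_ne_zero _ (sub_ne_zero.2 fun h => ?_)
    exact (Irr.mem_prs.1 hx).ne' (hβ h)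
  have hdβ : (mn (fun i => φ (β i)) m).det = φ (minor 1 β m).det := by
    rw [RingHom.map_det]
    congr 1
    refine Matrix.ext fun i j => ?_
    rw [RingHom.mapMatrix_apply, Matrix.map_apply]
    unfold mn minor
    rw [Matrix.of_apply, Matrix.of_apply, one_mul, map_phi k φ (fun a => by
      rw [hφa, algebraMap_eq, map_C, hι]; rfl) β m 0
      i.succ j.succ, phi_base k (RatFunc (AlgebraicClosure k))]
  have hid : ((minor 1 β m).det).map ι = C c0 * Q.map ι := by
    apply hinj
    rw [← hφa, ← hdβ, hc1, hcL, map_mul, ← hφa, hQ, map_prod]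
    congr 1
    refine Finset.prod_congr rfl fun x _ => ?_
    rw [map_pow, map_sub]
  have hlc := congrArg leadingCoeff hid
  rw [leadingCoeff_map, leadingCoeff_mul, leadingCoeff_C, leadingCoeff_map] at hlc
  have hlQ : ι Q.leadingCoeff ≠ 0 := (_root_.map_ne_zero _).2 (leadingCoeff_ne_zero.2 hQ0)
  have hc0k : c0 = ι ((minor 1 β m).det.leadingCoeff / Q.leadingCoeff) := by
    rw [map_div₀, hlc, mul_div_assoc, div_self hlQ, mul_one]
  refine ⟨(minor 1 β m).det.leadingCoeff / Q.leadingCoeff, ?_, ?_⟩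
  · intro h0
    apply hc0
    rw [hcL, hc0k, h0, map_zero, map_zero]
  · apply map_injective ι ι.injective
    rw [hid, hc0k, Polynomial.map_mul, map_C, ← hQ]

end Pool.Agent.Y587.Ten
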